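import Pool.Agent.Q35.HR.Main

set_option autoImplicit false

/-!
# Inner rolling fails for every upper curvature bound `c`

`M_ρ` is the hyperbolic plane of curvature `-1/ρ²` (hyperboloid model, metric `ρ² ⟨v, v⟩`), see
`Pool/Agent/Q35/HR/Def.lean`.  For every real `c` there are `ρ` with `sec(M_ρ) = -1/ρ² ≤ c` and a
compact convex domain of `M_ρ`, bounded by a simple closed smooth regular curve, with all hypotheses
of the question, inside of which the ball of radius `R_λ` does not roll freely.  The domain is
`25 y² (1 - x²) ≤ (24/25)² - x²` in the Klein model; its boundary is the curve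
`x = (24/25) sin t`, `y = (24/125) cos t / √(1 - x²)`.
-/

open Pool.Agent.Q35.HR

namespace Pool.Agent.Results.MP_1c25d9_gt.ThinNeck

/-- For every real `c` there are a hyperbolic plane `M_ρ` with `sec(M_ρ) = -1/ρ² ≤ c`, a number `λ`
satisfying the sphere constraints for `c`, and a compact convex domain `D` of `M_ρ` with boundary a
simple closed smooth regular curve `Γ` such that:
* at every boundary point there is exactly one inward unit normal, and the normal curvature with
  respect to it is positive, at most `λ`, and at least `√(-c)` if `c < 0`;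
* there is a radius `R_λ` (`ct_c(R_λ) = λ`, `0 < R_λ`, and `R_λ < π/√c` if `c > 0`), and a ball of
  such a radius does not roll freely inside `D`. -/
theorem result (c : ℝ) : ∃ (ρ lam : ℝ) (D : Set Hyp) (Γ : ℝ → Hyp),
    0 < ρ ∧ -1 / ρ ^ 2 ≤ c ∧ SphereConstraints c lam ∧
    IsDomain D Γ ∧ IsCompact D ∧ GeodConvex D ∧
    (∀ t, ∃! n, InwardNormal D Γ t n) ∧
    (∀ t n, InwardNormal D Γ t n →
      0 < normalCurv ρ Γ t n ∧ normalCurv ρ Γ t n ≤ lam ∧
      (c < 0 → √(-c) ≤ normalCurv ρ Γ t n)) ∧
    (∃ R, IsRadius c lam R) ∧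
    ∀ R, IsRadius c lam R → ¬ RollsFreely ρ D Γ R :=
  main c

end Pool.Agent.Results.MP_1c25d9_gt.ThinNeck
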